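import Pool.Agent.D0H27.CAP.Scal

set_option autoImplicit false

/-!
# Affine Baire-one maps into spaces with the compact approximation property

Answer to Q2 of MP_04557e_an: no. For real and for complex scalars there are a Banach space `E`
with the compact approximation property, a compact convex set `X` in a Hausdorff locally convex
space and an affine map `f : X → E` of the first Baire class which is not the pointwise limit of a
sequence of continuous affine maps. The map `f` does not even belong to the smallest family of maps
`X → E` which contains the continuous affine maps and is closed under pointwise limits of sequences.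

The definitions `IsAffine`, `IsBaireOne`, `IsAffineOne` are those of the file
`ApproxPropertySuffices` (module `Pool.Agent.R884.AffB`), `HasCAP` and `AffineBaire` are in
`Pool.Agent.D0H27.CAP.Scal` and `Pool.Agent.D0H27.CAP.Hier`.

The space: `am` is a matrix with `am * am = 0`, trace one and small rows (Davie). The elements of
`E` are the families `x k n i j` (`k` level, `n` dyadic scale, `i < 2^(k+2)`, `j < 2^n`) which are
martingales in `(n, j)`, whose values are killed by `am`, with the norm
`∑_{k,n} max_{i,j} (3/4)^n exp(-k (j+1) / (8 * 2^n)) |x k n i j|`. Shifts in time (the variable
`j / 2^n`) followed by averages are compact and converge strongly to the identity, and the trace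
argument shows that `E` fails the approximation property. For any separable dual like space without
the approximation property the set `X` of all threads of `l1`-bounded variation over the
finite-dimensional quotients, with `f` the limit map, is a counterexample.
-/

namespace Pool.Agent.Results.MP_04557e_an.CompactApproximationFails

open Set
open Pool.Agent.D0H27.CAP
open Pool.Agent.R884.AffB (IsAffine IsBaireOne IsAffineOne)

/-- **Main theorem.** There are a real (complex) Banach space `E` with the compact approximation
property, a compact convex set `X` and an affine `f ∈ C₁(X,E)` which does not belong to `𝔄₁(X,E)`,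
nor to any other affine Baire class. -/
theorem result (𝕜 : Type) [RCLike 𝕜] :
    ∃ (E : Type) (_ : NormedAddCommGroup E) (_ : NormedSpace 𝕜 E) (_ : NormedSpace ℝ E)
      (_ : IsScalarTower ℝ 𝕜 E) (_ : CompleteSpace E), HasCAP 𝕜 E ∧
    ∃ (V : Type) (_ : AddCommGroup V) (_ : Module ℝ V) (_ : TopologicalSpace V)
      (_ : IsTopologicalAddGroup V) (_ : ContinuousSMul ℝ V) (_ : LocallyConvexSpace ℝ V)
      (_ : T2Space V) (X : Set V) (f : X → E),
      IsCompact X ∧ Convex ℝ X ∧ IsAffine X f ∧ IsBaireOne X univ f ∧
        ¬ IsAffineOne X univ f ∧ ¬ AffineBaire X f :=
  ⟨EK 𝕜, inferInstance, inferInstance, inferInstance, inferInstance, inferInstance, hasCAP_EK 𝕜,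
    TT.V, inferInstance, inferInstance, inferInstance, inferInstance, inferInstance, inferInstance,
    inferInstance, TT.X, fK 𝕜, TT.isCompact_X, TT.convex_X, isAffine_fK 𝕜, isBaireOne_fK 𝕜,
    fun h => not_affineBaire_fK 𝕜 (Pool.Agent.D0H27.CAP.IsAffineOne.affineBaire h),
    not_affineBaire_fK 𝕜⟩

end Pool.Agent.Results.MP_04557e_an.CompactApproximationFails
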